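import Pool.Agent.Lib_helper95.Lat.Good

/-!
# Vanishing of characters of irreducible lattices in `G × Isom(E^n)` after restriction
-/

namespace Pool.Agent.Lat

open Set Topology Function Filter
open scoped InnerProductSpace

section Final

variable {G : Type*} [Group G] [TopologicalSpace G] [IsTopologicalGroup G] {n : ℕ}
  {Γ : Type*} [Group Γ]

/-- increments in the Euclidean direction -/
def inc (f : G × EE n → ℝ) (t : EE n) (z : G × EE n) : ℝ := f (z.1, z.2 + t) - f z

omit [Group G] [IsTopologicalGroup G] in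
theorem continuous_inc {f : G × EE n → ℝ} (hf : Continuous f) :
    Continuous fun p : EE n × (G × EE n) => inc f p.1 p.2 := by
  unfold inc
  fun_prop

omit [Group G] [TopologicalSpace G] [IsTopologicalGroup G] in
theorem inc_add (f : G × EE n → ℝ) (s t : EE n) (z : G × EE n) :
    inc f (s + t) z = inc f s (z.1, z.2 + t) + inc f t z := by
  unfold inc
  have : z.2 + (s + t) = z.2 + t + s := by abel
  simp only [this]; ring

/-- directions of constant increments -/
def constDir (f : G × EE n → ℝ) : AddSubgroup (EE n) where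
  carrier := {t | ∀ z z', inc f t z = inc f t z'}
  zero_mem' := by
    intro z z'
    simp [inc]
  add_mem' := by
    intro s t hs ht z z'
    rw [inc_add, inc_add, hs (z.1, z.2 + t) (z'.1, z'.2 + t), ht z z']
  neg_mem' := by
    intro t ht z z'
    have h : ∀ z : G × EE n, inc f (-t) z = -inc f t (z.1, z.2 + -t) := by
      intro z
      simp [inc]
    rw [h, h, ht (z.1, z.2 + -t) (z'.1, z'.2 + -t)]

omit [Group G] [TopologicalSpace G] [IsTopologicalGroup G] in
theorem mem_constDir {f : G × EE n → ℝ} {t : EE n} :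
    t ∈ constDir f ↔ ∀ z z', inc f t z = inc f t z' := Iff.rfl

omit [Group G] [IsTopologicalGroup G] in
theorem isClosed_constDir {f : G × EE n → ℝ} (hf : Continuous f) :
    IsClosed (constDir f : Set (EE n)) := by
  have : (constDir f : Set (EE n)) = ⋂ (z : G × EE n) (z' : G × EE n),
      {t | inc f t z = inc f t z'} := by
    ext t
    simp only [SetLike.mem_coe, mem_constDir, mem_iInter, mem_ofPred_eq]
  rw [this]
  refine isClosed_iInter fun z => isClosed_iInter fun z' => isClosed_eq ?_ ?_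
  · exact (continuous_inc hf).comp (continuous_id.prodMk continuous_const)
  · exact (continuous_inc hf).comp (continuous_id.prodMk continuous_const)

/-- lines of constant increments -/
def constLine (f : G × EE n → ℝ) : Submodule ℝ (EE n) where
  carrier := {t | ∀ s : ℝ, s • t ∈ constDir f}
  zero_mem' := by
    intro s
    rw [smul_zero]; exact (constDir f).zero_mem
  add_mem' := by
    intro t t' ht ht' s
    rw [smul_add]; exact (constDir f).add_mem (ht s) (ht' s)
  smul_mem' := by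
    intro c t ht s
    rw [smul_smul]; exact ht _

omit [Group G] [TopologicalSpace G] [IsTopologicalGroup G] in
theorem mem_constLine {f : G × EE n → ℝ} {t : EE n} :
    t ∈ constLine f ↔ ∀ s : ℝ, s • t ∈ constDir f := Iff.rfl

theorem lin_inv_apply (b : Γ →* (EE n ≃ᵢ EE n)) (γ : Γ) (t : EE n) :
    lin (b γ) (lin (b γ⁻¹) t) = t := by
  rw [← lin_mul, ← map_mul, mul_inv_cancel, map_one, lin_one]

theorem lin_inv_apply' (b : Γ →* (EE n ≃ᵢ EE n)) (γ : Γ) (t : EE n) :
    lin (b γ⁻¹) (lin (b γ) t) = t := by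
  rw [← lin_mul, ← map_mul, inv_mul_cancel, map_one, lin_one]

omit [TopologicalSpace G] [IsTopologicalGroup G] in
/-- equivariance of increments -/
theorem inc_act {a : Γ →* G} {b : Γ →* (EE n ≃ᵢ EE n)} {f : G × EE n → ℝ} {γ : Γ} {c : ℝ}
    (hc : ∀ z, f (act a b γ z) = f z + c) (t : EE n) (z : G × EE n) :
    inc f (lin (b γ) t) (act a b γ z) = inc f t z := by
  unfold inc
  have h : ((act a b γ z).1, (act a b γ z).2 + lin (b γ) t) = act a b γ (z.1, z.2 + t) := by
    simp only [act, apply_add]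
  rw [h, hc, hc]; ring

theorem constLine_eq_top {a : Γ →* G} {b : Γ →* (EE n ≃ᵢ EE n)} {Δ : Subgroup Γ}
    {f : G × EE n → ℝ} (hf : Continuous f)
    (hχ : ∀ γ, ∃ c, ∀ z, f (act a b γ z) = f z + c)
    (hmax : ∀ (t : EE n) (z0 : G × EE n), (∀ z, inc f t z ≤ inc f t z0) → t ∈ constDir f)
    {Q : Set (G × EE n)} (hQ : IsCompact Q) (hQz : ∀ z, ∃ δ ∈ Δ, act a b δ z ∈ Q) :
    constLine f = ⊤ := by
  have hinv : ∀ γ t, t ∈ constDir f → lin (b γ) t ∈ constDir f := by
    intro γ t ht
    obtain ⟨c, hc⟩ := hχ γ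
    have h1 : ∀ z, inc f (lin (b γ) t) z = inc f t (act a b γ⁻¹ z) := by
      intro z
      have := inc_act hc t (act a b γ⁻¹ z)
      rwa [← act_mul, mul_inv_cancel, act_one] at this
    intro z z'
    rw [h1, h1, ht _ _]
  have hinv' : ∀ γ t, t ∈ constLine f → lin (b γ) t ∈ constLine f := by
    intro γ t ht s
    rw [← map_smul]
    exact hinv γ _ (ht s)
  have horth : ∀ γ t, t ∈ (constLine f)ᗮ → lin (b γ) t ∈ (constLine f)ᗮ := by
    intro γ t ht
    rw [Submodule.mem_orthogonal] at ht ⊢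
    intro u hu
    have h1 := ht _ (hinv' γ⁻¹ u hu)
    have h2 := (lin (b γ)).inner_map_map (lin (b γ⁻¹) u) t
    rw [lin_inv_apply] at h2
    rw [h2, h1]
  have hQne : Q.Nonempty := by
    obtain ⟨δ, -, h⟩ := hQz (1, 0)
    exact ⟨_, h⟩
  by_contra hne
  have hV : (constLine f)ᗮ ≠ ⊥ := by
    intro h
    exact hne ((Submodule.orthogonal_eq_bot_iff).1 h)
  obtain ⟨v, hv, hv0⟩ := Submodule.exists_mem_ne_zero_of_ne_bot hV
  have hclosedV : IsClosed ((constLine f)ᗮ : Set (EE n)) := Submodule.isClosed_orthogonal _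
  -- small vectors with constant increments
  have hsmall : ∀ r : ℝ, 0 < r → ∃ t ∈ (constLine f)ᗮ, ‖t‖ = r ∧ t ∈ constDir f := by
    intro r hr
    set C : Set (EE n) := ((constLine f)ᗮ : Set (EE n)) ∩ Metric.sphere 0 r with hC
    have hCc : IsCompact C := (isCompact_sphere 0 r).inter_left hclosedV
    have hCne : C.Nonempty := by
      refine ⟨(r / ‖v‖) • v, (constLine f)ᗮ.smul_mem _ hv, ?_⟩
      rw [mem_sphere_zero_iff_norm, norm_smul, norm_div, norm_norm,
        div_mul_cancel₀ _ (norm_ne_zero_iff.2 hv0), Real.norm_of_nonneg hr.le]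
    obtain ⟨⟨t1, z1⟩, ⟨ht1, hz1⟩, hm⟩ := (hCc.prod hQ).exists_isMaxOn (hCne.prod hQne)
      (continuous_inc hf).continuousOn
    refine ⟨t1, ht1.1, by simpa using ht1.2, hmax t1 z1 fun z => ?_⟩
    obtain ⟨δ, -, hδ⟩ := hQz z
    obtain ⟨c, hc⟩ := hχ δ
    rw [← inc_act hc t1 z]
    refine hm (a := (lin (b δ) t1, act a b δ z)) ⟨⟨horth δ _ ht1.1, ?_⟩, hδ⟩
    have := ht1.2
    rw [mem_sphere_zero_iff_norm] at this ⊢
    rw [LinearIsometryEquiv.norm_map, this]
  choose! t ht using hsmall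
  set u : ℕ → EE n := fun k => t (1 / ((k : ℝ) + 1)) with hu
  have hk : ∀ k : ℕ, (0 : ℝ) < 1 / ((k : ℝ) + 1) := fun k => by positivity
  have hu1 : ∀ k, u k ∈ (constLine f)ᗮ := fun k => (ht _ (hk k)).1
  have hu2 : ∀ k : ℕ, ‖u k‖ = 1 / ((k : ℝ) + 1) := fun k => (ht _ (hk k)).2.1
  have hu3 : ∀ k, u k ∈ constDir f := fun k => (ht _ (hk k)).2.2
  set e : ℕ → EE n := fun k => ((k : ℝ) + 1) • u k with he
  set C : Set (EE n) := ((constLine f)ᗮ : Set (EE n)) ∩ Metric.sphere 0 1 with hC
  have hCc : IsCompact C := (isCompact_sphere 0 1).inter_left hclosedV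
  have heC : ∀ k, e k ∈ C := by
    intro k
    refine ⟨(constLine f)ᗮ.smul_mem _ (hu1 k), ?_⟩
    rw [mem_sphere_zero_iff_norm, he]
    simp only
    rw [norm_smul, hu2, Real.norm_of_nonneg (by positivity)]
    field_simp
  obtain ⟨e', he', ψ, hψ, hlim⟩ := hCc.tendsto_subseq heC
  have hline : e' ∈ constLine f := by
    intro s
    have h1 : Tendsto (fun k : ℕ => ((⌊s * ((ψ k : ℝ) + 1)⌋ : ℝ) / ((ψ k : ℝ) + 1)) • e (ψ k))
        atTop (𝓝 (s • e')) := by
      refine Tendsto.smul ?_ hlim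
      have h2 : Tendsto (fun x : ℝ => (⌊s * x⌋ : ℝ) / x) atTop (𝓝 s) := by
        have h3 : Tendsto (fun x : ℝ => s - x⁻¹) atTop (𝓝 s) := by
          simpa using (tendsto_inv_atTop_zero (𝕜 := ℝ)).const_sub s
        refine tendsto_of_tendsto_of_tendsto_of_le_of_le' h3 tendsto_const_nhds ?_ ?_
        · filter_upwards [eventually_gt_atTop (0 : ℝ)] with x hx
          rw [le_div_iff₀ hx, sub_mul, inv_mul_cancel₀ hx.ne']
          exact (Int.sub_one_lt_floor _).le
        · filter_upwards [eventually_gt_atTop (0 : ℝ)] with x hx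
          rw [div_le_iff₀ hx]
          exact Int.floor_le _
      refine h2.comp ?_
      exact tendsto_atTop_add_const_right _ _ (tendsto_natCast_atTop_atTop.comp hψ.tendsto_atTop)
    refine (isClosed_constDir hf).mem_of_tendsto h1 (Eventually.of_forall fun k => ?_)
    have h3 : ((⌊s * ((ψ k : ℝ) + 1)⌋ : ℝ) / ((ψ k : ℝ) + 1)) • e (ψ k) =
        ⌊s * ((ψ k : ℝ) + 1)⌋ • u (ψ k) := by
      rw [he]
      simp only
      rw [smul_smul, div_mul_cancel₀ _ (by positivity : ((ψ k : ℝ) + 1) ≠ 0),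
        Int.cast_smul_eq_zsmul]
    rw [h3]
    exact (constDir f).zsmul_mem (hu3 _) _
  have h0 : e' = 0 := by
    have h1 : inner ℝ e' e' = 0 := (Submodule.mem_orthogonal _ _).1 he'.1 e' hline
    exact inner_self_eq_zero.1 h1
  have h1 := he'.2
  rw [h0] at h1
  simp at h1

variable [LocallyCompactSpace G] [T2Space G] [SecondCountableTopology G]

theorem harmonic_final [ConnectedSpace G] (hnc : NoChar G) (a : Γ →* G)
    (b : Γ →* (EE n ≃ᵢ EE n)) (Δ : Subgroup Γ)
    (hproper : ∀ K : Set (G × EE n), IsCompact K →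
      {δ : Γ | δ ∈ Δ ∧ (act a b δ '' K ∩ K).Nonempty}.Finite)
    (hcoc : ∀ γ : Γ, ∃ Q : Set (G × EE n), IsCompact Q ∧
      ∀ z, ∃ δ ∈ Δ, γ * δ * γ⁻¹ ∈ Δ ∧ act a b δ z ∈ Q)
    (hdense : Dense (range a)) (hfix : ∀ w : EE n, (∀ γ, lin (b γ) w = w) → w = 0)
    (φ : Γ → ℝ) (hφ : ∀ x y, φ (x * y) = φ x + φ y) : ∀ δ ∈ Δ, φ δ = 0 := by
  have hcoc1 : ∃ Q : Set (G × EE n), IsCompact Q ∧ ∀ z, ∃ δ ∈ Δ, act a b δ z ∈ Q := by
    obtain ⟨Q, hQ, h⟩ := hcoc 1
    refine ⟨Q, hQ, fun z => ?_⟩
    obtain ⟨δ, hδ, -, h2⟩ := h z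
    exact ⟨δ, hδ, h2⟩
  obtain ⟨f, hf, hfΔ, hmp⟩ := exists_good a b Δ hproper hcoc1 φ hφ
  have hφ1 : φ 1 = 0 := by
    have := hφ 1 1
    rw [one_mul] at this; linarith
  have hφinv : ∀ γ, φ γ⁻¹ = -φ γ := by
    intro γ
    have := hφ γ γ⁻¹
    rw [mul_inv_cancel, hφ1] at this; linarith
  have hχ : ∀ γ, ∃ c, ∀ z, f (act a b γ z) = f z + c := by
    intro γ
    obtain ⟨Q, hQ, hQz⟩ := hcoc γ
    have hQne : Q.Nonempty := by
      obtain ⟨δ, -, -, h⟩ := hQz (1, 0)
      exact ⟨_, h⟩
    have hw : Continuous fun z => f (act a b γ z) - f z := (hf.comp (continuous_act a b γ)).sub hf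
    obtain ⟨z0, hz0, hm⟩ := hQ.exists_isMaxOn hQne hw.continuousOn
    have hinv : ∀ δ ∈ Δ, γ * δ * γ⁻¹ ∈ Δ → ∀ z,
        f (act a b γ (act a b δ z)) - f (act a b δ z) = f (act a b γ z) - f z := by
      intro δ hδ hδ' z
      have h1 : act a b γ (act a b δ z) = act a b (γ * δ * γ⁻¹) (act a b γ z) := by
        rw [← act_mul, ← act_mul]; congr 1; group
      rw [h1, hfΔ _ hδ', hfΔ _ hδ, hφ, hφ, hφinv]; ring
    have h2 := hmp (a γ) (b γ) z0 (fun z => by
      obtain ⟨δ, hδ, hδ', hz⟩ := hQz z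
      have h3 := hm hz
      have h4 := hinv δ hδ hδ' z
      simp only [mem_ofPred_eq] at h3
      rw [h4] at h3
      exact h3)
    refine ⟨f (act a b γ z0) - f z0, fun z => ?_⟩
    have h5 : f (act a b γ z) - f z = f (act a b γ z0) - f z0 := h2 z
    linarith
  have hmax : ∀ (t : EE n) (z0 : G × EE n), (∀ z, inc f t z ≤ inc f t z0) → t ∈ constDir f := by
    intro t z0 h
    have h1 := hmp 1 (trans t) z0 (fun z => by
      have := h z
      simpa [inc] using this)
    have h2 : ∀ z, inc f t z = inc f t z0 := fun z => by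
      have := h1 z
      simpa [inc] using this
    intro z z'
    rw [h2 z, h2 z']
  obtain ⟨Q, hQ, hQz⟩ := hcoc1
  have htop := constLine_eq_top hf hχ hmax hQ hQz
  have hall : ∀ t z z', inc f t z = inc f t z' := by
    intro t
    have h1 : t ∈ constLine f := by rw [htop]; trivial
    have h2 := h1 1
    rw [one_smul] at h2
    exact h2
  let ℓ : EE n →+ ℝ :=
    { toFun := fun t => inc f t (1, 0)
      map_zero' := by simp [inc]
      map_add' := fun s t => by
        rw [inc_add, hall s _ (1, 0)] }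
  have hℓc : Continuous ℓ := (continuous_inc hf).comp (continuous_id.prodMk continuous_const)
  let L : EE n →L[ℝ] ℝ := ℓ.toRealLinearMap hℓc
  have hL : ∀ t, L t = inc f t (1, 0) := fun t => rfl
  have hL0 : ∀ t, L t = 0 := by
    set w := (InnerProductSpace.toDual ℝ (EE n)).symm L with hw
    have hwL : ∀ t, inner ℝ w t = L t := fun t => InnerProductSpace.toDual_symm_apply
    have hw0 : w = 0 := by
      refine hfix w fun γ => ?_
      refine ext_inner_right ℝ fun t => ?_
      obtain ⟨c, hc⟩ := hχ γ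
      have h1 := (lin (b γ)).inner_map_map w (lin (b γ⁻¹) t)
      rw [lin_inv_apply] at h1
      rw [h1, hwL, hwL, hL, hL]
      have h2 := inc_act hc (lin (b γ⁻¹) t) (1, 0)
      rw [lin_inv_apply] at h2
      rw [← h2]
      exact hall _ _ _
    intro t
    rw [← hwL, hw0, inner_zero_left]
  have hf2 : ∀ g v, f (g, v) = f (g, 0) := by
    intro g v
    have h1 : inc f v (g, 0) = 0 := by
      rw [hall v _ (1, 0), ← hL, hL0]
    unfold inc at h1
    simp only [zero_add] at h1
    linarith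
  set f1 : G → ℝ := fun g => f (g, 0) with hf1
  have hf1c : Continuous f1 := hf.comp (continuous_id.prodMk continuous_const)
  have hset : ∀ x : G, ∀ g, f1 (x * g) - f1 g = f1 x - f1 1 := by
    intro x g
    have hcl : IsClosed {x : G | f1 (x * g) - f1 g = f1 x - f1 1} :=
      isClosed_eq ((hf1c.comp (continuous_id.mul continuous_const)).sub continuous_const)
        (hf1c.sub continuous_const)
    have hsub : range a ⊆ {x : G | f1 (x * g) - f1 g = f1 x - f1 1} := by
      rintro _ ⟨γ, rfl⟩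
      obtain ⟨c, hc⟩ := hχ γ
      have h1 : ∀ g, f1 (a γ * g) = f1 g + c := by
        intro g
        have := hc (g, 0)
        rw [← this]
        exact (hf2 _ _).symm
      have h2 := h1 1
      rw [mul_one] at h2
      show f1 (a γ * g) - f1 g = f1 (a γ) - f1 1
      rw [h1, h2]; ring
    have h3 := hcl.closure_subset_iff.2 hsub
    rw [hdense.closure_eq] at h3
    exact h3 (mem_univ x)
  have hconst := hnc (fun x => f1 x - f1 1) (hf1c.sub continuous_const) (by
    intro x y
    have := hset x y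
    linarith)
  intro δ hδ
  have h1 := hfΔ δ hδ (1, 0)
  have h2 : f (act a b δ (1, 0)) = f1 (a δ * 1) := hf2 _ _
  have h3 := hconst (a δ * 1)
  have h4 : f ((1 : G), (0 : EE n)) = f1 1 := rfl
  rw [h2, h4] at h1
  linarith

end Final

end Pool.Agent.Lat
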