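import Pool.Agent.Lib_helper95.Lat.Harm

/-!
# Existence of good harmonic functions
-/

namespace Pool.Agent.Lat

open Set Topology MeasureTheory Function Measure Filter Pointwise

section Good

variable {G : Type*} [Group G] [TopologicalSpace G] [IsTopologicalGroup G]
  [LocallyCompactSpace G] [T2Space G] [SecondCountableTopology G] {n : ℕ} {Γ : Type*} [Group Γ]

theorem exists_good [ConnectedSpace G] (a : Γ →* G) (b : Γ →* (EE n ≃ᵢ EE n)) (Δ : Subgroup Γ)
    (hproper : ∀ K : Set (G × EE n), IsCompact K →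
      {δ : Γ | δ ∈ Δ ∧ (act a b δ '' K ∩ K).Nonempty}.Finite)
    (hcoc : ∃ Q : Set (G × EE n), IsCompact Q ∧ ∀ z, ∃ δ ∈ Δ, act a b δ z ∈ Q)
    (φ : Γ → ℝ) (hφ : ∀ x y, φ (x * y) = φ x + φ y) :
    ∃ f : G × EE n → ℝ, Continuous f ∧ (∀ δ ∈ Δ, ∀ z, f (act a b δ z) = f z + φ δ) ∧
      ∀ (α : G) (β : EE n ≃ᵢ EE n) (z0 : G × EE n),
        (∀ z, f (α * z.1, β z.2) - f z ≤ f (α * z0.1, β z0.2) - f z0) →
        ∀ z, f (α * z.1, β z.2) - f z = f (α * z0.1, β z0.2) - f z0 := by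
  borelize G
  set μ : Measure G := haar with hμ
  set m : Measure (G × EE n) := μ.prod volume with hm
  set T : Δ → (G × EE n) → (G × EE n) := fun δ => act a b (δ : Γ) with hT
  have hmul : ∀ δ ε z, T (δ * ε) z = T δ (T ε z) := fun δ ε z => act_mul a b δ ε z
  have hc : ∀ δ, Continuous (T δ) := fun δ => continuous_act a b δ
  have hpr := proper_sub hproper
  obtain ⟨Q, hQ, hQz⟩ := hcoc
  have hQT : ∀ z, ∃ δ, T δ z ∈ Q := by
    intro z
    obtain ⟨δ, hδ, h2⟩ := hQz z
    exact ⟨⟨δ, hδ⟩, h2⟩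
  obtain ⟨w, hw⟩ := exists_wt (T := T) hc hmul hpr ⟨Q, hQ, hQT⟩
  set f0 : G × EE n → ℝ := fun z => -∑ᶠ δ : Δ, φ δ * w (T δ z) with hf0
  have hf0c : Continuous f0 := (continuous_sum_wt hc hpr hw.cont hw.cpt _).neg
  have hf0T : ∀ γ z, f0 (T γ z) = f0 z + φ γ := by
    intro γ z
    simp only [hf0]
    have h1 : ∀ δ : Δ, φ δ * w (T δ (T γ z)) =
        (fun ε : Δ => (φ ε - φ γ) * w (T ε z)) (δ * γ) := by
      intro δ
      simp only
      rw [hmul, Subgroup.coe_mul, hφ]; ring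
    have h0 : ∑ᶠ δ : Δ, φ δ * w (T δ (T γ z)) = ∑ᶠ ε : Δ, (φ ε - φ γ) * w (T ε z) :=
      (finsum_congr h1).trans
        (finsum_comp_equiv (Equiv.mulRight γ) (f := fun ε : Δ => (φ ε - φ γ) * w (T ε z)))
    rw [h0]
    have hfin : (support fun δ : Δ => w (T δ z)).Finite := finite_at (T := T) hpr hw.cpt z
    have h2 : ∑ᶠ ε : Δ, (φ ε - φ γ) * w (T ε z) =
        ∑ᶠ ε : Δ, φ ε * w (T ε z) - ∑ᶠ ε : Δ, φ γ * w (T ε z) := by
      rw [← finsum_sub_distrib]
      · exact finsum_congr fun ε => by ring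
      · exact hfin.subset fun ε hε h => hε (by
          have h' : w (T ε z) = 0 := h
          simp only [h']; simp)
      · exact hfin.subset fun ε hε h => hε (by
          have h' : w (T ε z) = 0 := h
          simp only [h']; simp)
    rw [h2, ← mul_finsum' _ _ hfin, hw.sum]
    ring
  -- the sets
  obtain ⟨U, hU, hU1⟩ := exists_compact_mem_nhds (1 : G)
  obtain ⟨M, hM⟩ := (hQ.image (continuous_snd)).isBounded.exists_norm_le
  set R : ℝ := 1 + |M| with hR
  have hR1 : 1 ≤ R := by rw [hR]; have := abs_nonneg M; linarith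
  set S : Set G := (Prod.fst '' Q)⁻¹ * U ∪ U with hS
  have hSc : IsCompact S := ((hQ.image continuous_fst).inv.mul hU).union hU
  set K : Set (G × EE n) := S ×ˢ Metric.closedBall 0 R with hK
  have hKc : IsCompact K := hSc.prod (isCompact_closedBall 0 R)
  set W : Set (G × EE n) := U ×ˢ Metric.closedBall 0 1 with hW
  have hWc : IsCompact W := hU.prod (isCompact_closedBall 0 1)
  have hWK : W ⊆ K := prod_mono subset_union_right (Metric.closedBall_subset_closedBall hR1)
  have hW1 : ((1 : G), (0 : EE n)) ∈ interior W := by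
    rw [mem_interior_iff_mem_nhds]
    exact prod_mem_nhds hU1 (Metric.closedBall_mem_nhds 0 one_pos)
  have hWpos : 0 < m.real W :=
    ENNReal.toReal_pos (measure_pos_of_nonempty_interior m ⟨_, hW1⟩).ne' hWc.measure_lt_top.ne
  have hWKm : m.real W ≤ m.real K := measureReal_mono hWK hKc.measure_lt_top.ne
  have hKpos : 0 < m.real K := hWpos.trans_le hWKm
  have hmp : ∀ z : G × EE n, MeasurePreserving (zm z) m m := fun z =>
    (measurePreserving_mul_left μ z.1).prod (measurePreserving_add_left volume z.2)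
  have hQW : ∀ z ∈ Q, zm z ⁻¹' W ⊆ K := by
    rintro z hz k ⟨hk1, hk2⟩
    refine ⟨Or.inl ?_, ?_⟩
    · refine ⟨z.1⁻¹, inv_mem_inv.2 ⟨z, hz, rfl⟩, z.1 * k.1, hk1, ?_⟩
      simp
    · simp only [zm, Metric.mem_closedBall, dist_zero_right] at hk2 ⊢
      have h1 := hM z.2 ⟨z, hz, rfl⟩
      have h2 : k.2 = (z.2 + k.2) - z.2 := by abel
      have h3 := norm_sub_le (z.2 + k.2) z.2
      rw [← h2] at h3
      have := le_abs_self M
      rw [hR]; linarith
  have hcommT : ∀ (f : G × EE n → ℝ) δ z,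
      avg m K (fun y => f (T δ y)) z = avg m K f (T δ z) := fun f δ z =>
    avg_comm μ S R (a δ) (b δ) f z
  obtain ⟨f, hf, hfT, c, hfc⟩ := exists_harmonic hmp hKc hKpos hWc hWpos hWKm hQ hQT hQW hcommT
    hf0c hf0T
  refine ⟨f, hf, fun δ hδ z => hfT ⟨δ, hδ⟩ z, ?_⟩
  intro α β z0 hmax
  have hαβ : Continuous fun z : G × EE n => (α * z.1, β z.2) :=
    (continuous_const.mul continuous_fst).prodMk (β.continuous.comp continuous_snd)
  have hfαβ : Continuous fun z : G × EE n => f (α * z.1, β z.2) := hf.comp hαβ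
  refine max_principle (m := m) (w := fun z => f (α * z.1, β z.2) - f z) hKc hKpos
    (interior_mono hWK hW1) (hfαβ.sub hf) (fun z => ?_) hmax
  rw [avg_sub hKc hfαβ hf, avg_comm μ S R α β f z]
  change avg m K f _ - avg m K f z = _
  rw [hfc, hfc]; ring

end Good

end Pool.Agent.Lat
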