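import Pool.Agent.Lib_helper95.Lat.RecProof

/-!
# Averaging operators and harmonic functions
-/

namespace Pool.Agent.Lat

open Set Topology MeasureTheory Function Measure Filter

section Avg

variable {G : Type*} [Group G] [TopologicalSpace G] [IsTopologicalGroup G]
  [LocallyCompactSpace G] [T2Space G] [SecondCountableTopology G] {n : ℕ}
  [MeasurableSpace G] [BorelSpace G]

/-- product in `G × EE n` -/
def zm (z k : G × EE n) : G × EE n := (z.1 * k.1, z.2 + k.2)

/-- averaging operator -/
noncomputable def avg (m : Measure (G × EE n)) (K : Set (G × EE n)) (f : G × EE n → ℝ)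
    (z : G × EE n) : ℝ :=
  (m.real K)⁻¹ * ∫ k in K, f (zm z k) ∂m

omit [LocallyCompactSpace G] [T2Space G] [SecondCountableTopology G] [MeasurableSpace G]
  [BorelSpace G] in
theorem continuous_zm : Continuous fun p : (G × EE n) × (G × EE n) => zm p.1 p.2 := by
  unfold zm
  fun_prop

omit [LocallyCompactSpace G] [T2Space G] [SecondCountableTopology G] [MeasurableSpace G]
  [BorelSpace G] in
theorem continuous_zm' (z : G × EE n) : Continuous fun k : G × EE n => zm z k := by
  unfold zm
  fun_prop

variable {m : Measure (G × EE n)} [IsFiniteMeasureOnCompacts m] {K : Set (G × EE n)}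

omit [LocallyCompactSpace G] in
theorem avg_int (hK : IsCompact K) {f : G × EE n → ℝ} (hf : Continuous f) (z : G × EE n) :
    IntegrableOn (fun k => f (zm z k)) K m :=
  (hf.comp (continuous_zm' z)).continuousOn.integrableOn_compact hK

theorem avg_continuous (hK : IsCompact K) {f : G × EE n → ℝ} (hf : Continuous f) :
    Continuous (avg m K f) := by
  have h := continuous_parametric_integral_of_continuous (μ := m)
    (f := fun z k : G × EE n => f (zm z k)) (hf.comp continuous_zm) hK
  exact continuous_const.mul h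

omit [LocallyCompactSpace G] in
theorem avg_sub (hK : IsCompact K) {f g : G × EE n → ℝ} (hf : Continuous f) (hg : Continuous g)
    (z : G × EE n) : avg m K (fun z => f z - g z) z = avg m K f z - avg m K g z := by
  unfold avg
  rw [integral_sub (avg_int hK hf z) (avg_int hK hg z), mul_sub]

theorem avg_const (hpos : 0 < m.real K) (c : ℝ) (z : G × EE n) :
    avg m K (fun _ => c) z = c := by
  unfold avg
  rw [setIntegral_const, smul_eq_mul, ← mul_assoc, inv_mul_cancel₀ hpos.ne', one_mul]

/-- the product measure -/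
theorem avg_comm (μ : Measure G) [SFinite μ] (S : Set G) (R : ℝ)
    (α : G) (β : EE n ≃ᵢ EE n) (f : G × EE n → ℝ) (z : G × EE n) :
    avg (μ.prod volume) (S ×ˢ Metric.closedBall 0 R) (fun z => f (α * z.1, β z.2)) z =
      avg (μ.prod volume) (S ×ˢ Metric.closedBall 0 R) f (α * z.1, β z.2) := by
  unfold avg
  congr 1
  let L : (G × EE n) ≃ₜ (G × EE n) := (Homeomorph.refl G).prodCongr (lin β).toHomeomorph
  have hL : ∀ k, L k = (k.1, lin β k.2) := fun k => rfl
  have hmp : MeasurePreserving L (μ.prod volume) (μ.prod volume) :=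
    (MeasurePreserving.id μ).prod (lin β).measurePreserving
  have hpre : L ⁻¹' (S ×ˢ Metric.closedBall 0 R) = S ×ˢ Metric.closedBall 0 R := by
    ext k
    simp [hL]
  have h := hmp.setIntegral_preimage_emb L.measurableEmbedding
    (fun k => f (zm (α * z.1, β z.2) k)) (S ×ˢ Metric.closedBall 0 R)
  rw [hpre] at h
  rw [← h]
  refine integral_congr_ae (Filter.Eventually.of_forall fun k => ?_)
  simp only [zm, hL]
  rw [apply_add, mul_assoc]

/-- strict maximum principle -/
theorem max_principle [ConnectedSpace G] [m.IsOpenPosMeasure] (hK : IsCompact K)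
    (hpos : 0 < m.real K)
    (h1 : ((1 : G), (0 : EE n)) ∈ interior K) {w : G × EE n → ℝ} (hw : Continuous w)
    (hP : ∀ z, avg m K w z = w z) {z0 : G × EE n} (hmax : ∀ z, w z ≤ w z0) :
    ∀ z, w z = w z0 := by
  have hclosed : IsClosed {z | w z = w z0} := isClosed_eq hw continuous_const
  have hopen : IsOpen {z | w z = w z0} := by
    rw [isOpen_iff_mem_nhds]
    intro z hz
    have hz' : w z = w z0 := hz
    have h2 : ∫ k in K, (w z0 - w (zm z k)) ∂m = 0 := by
      have h3 : avg m K (fun y => w z0 - w y) z = 0 := by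
        rw [avg_sub hK continuous_const hw, avg_const hpos, hP, hz', sub_self]
      unfold avg at h3
      rcases mul_eq_zero.1 h3 with h4 | h4
      · exact absurd h4 (inv_ne_zero hpos.ne')
      · exact h4
    have hc : Continuous fun k => w z0 - w (zm z k) :=
      continuous_const.sub (hw.comp (continuous_zm' z))
    have h5 : (fun k => w z0 - w (zm z k)) =ᵐ[m.restrict K] 0 :=
      (integral_eq_zero_iff_of_nonneg (fun k => sub_nonneg.2 (hmax _))
        (hc.continuousOn.integrableOn_compact hK)).1 h2
    have h6 : (fun k => w z0 - w (zm z k)) =ᵐ[m.restrict (interior K)] (fun _ => (0 : ℝ)) :=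
      ae_mono (Measure.restrict_mono interior_subset le_rfl) h5
    have h7 : EqOn (fun k => w z0 - w (zm z k)) (fun _ => (0 : ℝ)) (interior K) :=
      Measure.eqOn_open_of_ae_eq h6 isOpen_interior hc.continuousOn continuousOn_const
    let L : (G × EE n) ≃ₜ (G × EE n) := (Homeomorph.mulLeft z.1).prodCongr (Homeomorph.addLeft z.2)
    have hL : ∀ k, L k = zm z k := fun k => rfl
    have h8 : L '' interior K ∈ 𝓝 z := by
      refine (L.isOpenMap _ isOpen_interior).mem_nhds ⟨(1, 0), h1, ?_⟩
      rw [hL]; simp [zm]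
    refine Filter.mem_of_superset h8 ?_
    rintro _ ⟨k, hk, rfl⟩
    have := h7 hk
    simp only at this
    show w (L k) = w z0
    rw [hL]; linarith
  have h9 : {z | w z = w z0} = univ := IsClopen.eq_univ ⟨hclosed, hopen⟩ ⟨z0, rfl⟩
  intro z
  have : z ∈ {z | w z = w z0} := by rw [h9]; trivial
  exact this

/-- contraction on `Q` -/
theorem contraction_aux [m.IsOpenPosMeasure] (hmp : ∀ z : G × EE n, MeasurePreserving (zm z) m m)
    (hK : IsCompact K) (hpos : 0 < m.real K) {W : Set (G × EE n)}
    (hWc : IsCompact W)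
    {w : G × EE n → ℝ} (hw : Continuous w) {A B : ℝ} (hA : ∀ z, A ≤ w z) (hB : ∀ z, w z ≤ B)
    {z z' : G × EE n} (hz : zm z ⁻¹' W ⊆ K) (hz' : zm z' ⁻¹' W ⊆ K) :
    avg m K w z - avg m K w z' ≤ (1 - m.real W / m.real K) * (B - A) := by
  have emb : ∀ z : G × EE n, MeasurableEmbedding (zm z) := by
    intro z
    exact ((Homeomorph.mulLeft z.1).prodCongr (Homeomorph.addLeft z.2)).measurableEmbedding
  have key : ∀ (v : G × EE n → ℝ) (z : G × EE n), Continuous v → (∀ y, 0 ≤ v y) →
      zm z ⁻¹' W ⊆ K → (m.real K)⁻¹ * ∫ u in W, v u ∂m ≤ avg m K v z := by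
    intro v z hv hv0 hz
    unfold avg
    refine mul_le_mul_of_nonneg_left ?_ (inv_nonneg.2 hpos.le)
    rw [← (hmp z).setIntegral_preimage_emb (emb z) v W]
    exact setIntegral_mono_set (avg_int hK hv z) (Eventually.of_forall fun k => hv0 _)
      (Eventually.of_forall hz)
  have h1 := key (fun y => B - w y) z (continuous_const.sub hw) (fun y => sub_nonneg.2 (hB y)) hz
  have h2 := key (fun y => w y - A) z' (hw.sub continuous_const) (fun y => sub_nonneg.2 (hA y)) hz'
  rw [avg_sub hK continuous_const hw, avg_const hpos] at h1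
  rw [avg_sub hK hw continuous_const, avg_const hpos] at h2
  have hwi : IntegrableOn w W m := hw.continuousOn.integrableOn_compact hWc
  have hci : ∀ c : ℝ, IntegrableOn (fun _ : G × EE n => c) W m := fun c =>
    continuousOn_const.integrableOn_compact hWc
  rw [integral_sub (hci B) hwi, setIntegral_const, smul_eq_mul] at h1
  rw [integral_sub hwi (hci A), setIntegral_const, smul_eq_mul] at h2
  have h3 : (m.real K)⁻¹ * (m.real W * B - ∫ u in W, w u ∂m) +
    (m.real K)⁻¹ * ((∫ u in W, w u ∂m) - m.real W * A) = m.real W / m.real K * (B - A) := by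
    field_simp; ring
  linarith

/-- oscillation at most `c` -/
def Osc (w : G × EE n → ℝ) (c : ℝ) : Prop := ∀ z z', w z - w z' ≤ c

variable {D : Type*} [Group D] {T : D → (G × EE n) → (G × EE n)}

theorem osc_avg [m.IsOpenPosMeasure] (hmp : ∀ z : G × EE n, MeasurePreserving (zm z) m m)
    (hK : IsCompact K) (hpos : 0 < m.real K) {W : Set (G × EE n)} (hWc : IsCompact W)
    {Q : Set (G × EE n)} (hQ : ∀ z, ∃ δ, T δ z ∈ Q) (hQW : ∀ z ∈ Q, zm z ⁻¹' W ⊆ K)
    {w : G × EE n → ℝ} (hw : Continuous w)
    (hPinv : ∀ δ z, avg m K w (T δ z) = avg m K w z) {c : ℝ}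
    (hc : Osc w c) : Osc (avg m K w) ((1 - m.real W / m.real K) * c) := by
  intro z z'
  obtain ⟨δ, hδ⟩ := hQ z
  obtain ⟨δ', hδ'⟩ := hQ z'
  rw [← hPinv δ z, ← hPinv δ' z']
  have hbdd : BddAbove (range w) := ⟨w (1, 0) + c, by
    rintro _ ⟨y, rfl⟩
    have := hc y (1, 0)
    linarith⟩
  set B : ℝ := ⨆ y, w y with hB
  have hwB : ∀ y, w y ≤ B := fun y => le_ciSup hbdd y
  have hwA : ∀ y, B - c ≤ w y := by
    intro y
    have : B ≤ w y + c := ciSup_le fun x => by
      have := hc x y
      linarith
    linarith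
  have := contraction_aux hmp hK hpos hWc hw hwA hwB (hQW _ hδ) (hQW _ hδ')
  simpa using this

theorem exists_harmonic [m.IsOpenPosMeasure] (hmp : ∀ z : G × EE n, MeasurePreserving (zm z) m m)
    (hK : IsCompact K) (hpos : 0 < m.real K) {W : Set (G × EE n)} (hWc : IsCompact W)
    (hWpos : 0 < m.real W) (hWK : m.real W ≤ m.real K)
    {Q : Set (G × EE n)} (hQc : IsCompact Q) (hQ : ∀ z, ∃ δ, T δ z ∈ Q)
    (hQW : ∀ z ∈ Q, zm z ⁻¹' W ⊆ K)
    (hcomm : ∀ (f : G × EE n → ℝ) δ z, avg m K (fun y => f (T δ y)) z = avg m K f (T δ z))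
    {φ : D → ℝ} {f0 : G × EE n → ℝ} (hf0 : Continuous f0) (hφ : ∀ δ z, f0 (T δ z) = f0 z + φ δ) :
    ∃ f : G × EE n → ℝ, Continuous f ∧ (∀ δ z, f (T δ z) = f z + φ δ) ∧
      ∃ c, ∀ z, avg m K f z = f z + c := by
  set P : (G × EE n → ℝ) → (G × EE n → ℝ) := avg m K with hP
  have Padd : ∀ (f : G × EE n → ℝ) (c : ℝ), Continuous f → ∀ z,
      P (fun y => f y + c) z = P f z + c := by
    intro f c hf z
    have h1 : P (fun y => f y - (fun _ => -c) y) z = P f z - P (fun _ => -c) z :=
      avg_sub hK hf continuous_const z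
    have h2 : P (fun _ => -c) z = -c := avg_const hpos _ _
    rw [h2] at h1
    simpa using h1
  have Psub : ∀ (f : G × EE n → ℝ) (c : ℝ), Continuous f → ∀ z,
      P (fun y => f y - c) z = P f z - c := by
    intro f c hf z
    have h1 := Padd f (-c) hf z
    simpa [sub_eq_add_neg] using h1
  set g : ℕ → G × EE n → ℝ := fun k => P^[k] f0 with hg
  have g0 : g 0 = f0 := rfl
  have gs : ∀ k, g (k + 1) = P (g k) := fun k => Function.iterate_succ_apply' P k f0
  have gc : ∀ k, Continuous (g k) := by
    intro k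
    induction k with
    | zero => exact hf0
    | succ k ih => rw [gs]; exact avg_continuous hK ih
  have geq : ∀ k δ z, g k (T δ z) = g k z + φ δ := by
    intro k
    induction k with
    | zero => exact hφ
    | succ k ih =>
      intro δ z
      rw [gs, ← hcomm]
      have : (fun y => g k (T δ y)) = fun y => g k y + φ δ := by ext y; exact ih δ y
      rw [this]
      exact Padd _ _ (gc k) z
  set h : ℕ → G × EE n → ℝ := fun k z => g (k + 1) z - g k z with hh
  have hc : ∀ k, Continuous (h k) := fun k => (gc (k + 1)).sub (gc k)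
  have hinv : ∀ k δ z, h k (T δ z) = h k z := by
    intro k δ z
    simp only [hh, geq]; ring
  have hs : ∀ k, h (k + 1) = P (h k) := by
    intro k
    ext z
    simp only [hh]
    have := avg_sub (m := m) hK (gc (k + 1)) (gc k) z
    rw [hP, this, gs (k + 1), gs k]
  obtain ⟨C, hC⟩ : ∃ C, Osc (h 0) C := by
    obtain ⟨M, hM⟩ := (hQc.image (hc 0)).isBounded.exists_norm_le
    refine ⟨M + M, fun z z' => ?_⟩
    obtain ⟨δ, hδ⟩ := hQ z
    obtain ⟨δ', hδ'⟩ := hQ z'
    rw [← hinv 0 δ z, ← hinv 0 δ' z']
    have h1 := hM _ ⟨_, hδ, rfl⟩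
    have h2 := hM _ ⟨_, hδ', rfl⟩
    rw [Real.norm_eq_abs] at h1 h2
    have := abs_le.1 h1
    have := abs_le.1 h2
    linarith
  set r : ℝ := 1 - m.real W / m.real K with hr
  have hr0 : 0 ≤ r := by
    rw [hr, sub_nonneg]; exact (div_le_one hpos).2 hWK
  have hr1 : r < 1 := by
    rw [hr]; have : 0 < m.real W / m.real K := by positivity
    linarith
  have hosc : ∀ k, Osc (h k) (r ^ k * C) := by
    intro k
    induction k with
    | zero => simpa using hC
    | succ k ih =>
      have h1 := osc_avg (T := T) hmp hK hpos hWc hQ hQW (hc k) (by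
        intro δ z
        show P (h k) (T δ z) = P (h k) z
        rw [← hcomm]
        congr 1
        ext y; exact hinv k δ y) ih
      rw [hs, pow_succ, mul_comm (r ^ k) r, mul_assoc]
      exact h1
  let zs : G × EE n := (1, 0)
  have hbound : ∀ k z, ‖h k z - h k zs‖ ≤ r ^ k * C := by
    intro k z
    rw [Real.norm_eq_abs, abs_le]
    have h1 := hosc k z zs
    have h2 := hosc k zs z
    constructor <;> linarith
  have hsum : Summable fun k : ℕ => r ^ k * C :=
    (summable_geometric_of_lt_one hr0 hr1).mul_right C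
  have hsumz : ∀ z, Summable fun k => h k z - h k zs := fun z =>
    Summable.of_norm_bounded hsum fun k => hbound k z
  let f : G × EE n → ℝ := fun z => (f0 z - f0 zs) + ∑' k, (h k z - h k zs)
  have hfc : Continuous f := by
    refine (hf0.sub continuous_const).add ?_
    exact continuous_tsum (fun k => (hc k).sub continuous_const) hsum fun k z => hbound k z
  have hpart : ∀ N z, g N z - g N zs = (f0 z - f0 zs) + ∑ k ∈ Finset.range N, (h k z - h k zs) := by
    intro N z
    have h1 : ∀ y, ∑ k ∈ Finset.range N, h k y = g N y - g 0 y := fun y =>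
      Finset.sum_range_sub (fun k => g k y) N
    rw [Finset.sum_sub_distrib, h1, h1, g0]; ring
  have hlim : ∀ z, Tendsto (fun N => g N z - g N zs) atTop (𝓝 (f z)) := by
    intro z
    simp_rw [hpart]
    exact (hsumz z).hasSum.tendsto_sum_nat.const_add _
  have hfeq : ∀ δ z, f (T δ z) = f z + φ δ := by
    intro δ z
    refine tendsto_nhds_unique (hlim (T δ z)) ?_
    have h1 : (fun N => g N (T δ z) - g N zs) = fun N => (g N z - g N zs) + φ δ := by
      ext N; rw [geq]; ring
    rw [h1]
    exact (hlim z).add_const _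
  refine ⟨f, hfc, hfeq, ?_⟩
  -- the averages converge
  have hPlim : ∀ z, Tendsto (fun N => P (fun y => g N y - g N zs) z) atTop (𝓝 (P f z)) := by
    intro z
    simp only [hP, avg]
    refine Tendsto.const_mul _ ?_
    refine tendsto_integral_of_dominated_convergence
      (fun k => ‖f0 (zm z k) - f0 zs‖ + ∑' j : ℕ, r ^ j * C) ?_ ?_ ?_ ?_
    · intro N
      exact (((gc N).comp (continuous_zm' z)).sub continuous_const).aestronglyMeasurable
    · have hcont : Continuous fun k => ‖f0 (zm z k) - f0 zs‖ + ∑' j : ℕ, r ^ j * C :=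
        ((hf0.comp (continuous_zm' z)).sub continuous_const).norm.add continuous_const
      exact hcont.continuousOn.integrableOn_compact hK
    · intro N
      refine Eventually.of_forall fun k => ?_
      rw [hpart]
      refine (norm_add_le _ _).trans (add_le_add le_rfl ?_)
      refine (norm_sum_le _ _).trans ?_
      refine (Finset.sum_le_sum fun j _ => hbound j _).trans ?_
      have hC0 : 0 ≤ C := by
        have := hC zs zs
        simpa using this
      exact hsum.sum_le_tsum _ fun j _ => mul_nonneg (pow_nonneg hr0 j) hC0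
    · exact Eventually.of_forall fun k => hlim (zm z k)
  have hcon : ∀ z, Tendsto (fun N => h N zs) atTop (𝓝 (P f z - f z)) := by
    intro z
    have h1 : (fun N => h N zs) = fun N => P (fun y => g N y - g N zs) z -
        (g (N + 1) z - g (N + 1) zs) := by
      ext N
      rw [Psub _ _ (gc N), ← gs]
      simp only [hh]; ring
    rw [h1]
    exact (hPlim z).sub ((tendsto_add_atTop_iff_nat 1).2 (hlim z))
  refine ⟨P f zs - f zs, fun z => ?_⟩
  have := tendsto_nhds_unique (hcon z) (hcon zs)
  linarith

end Avg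

end Pool.Agent.Lat
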