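import Mathlib

/-!
# Weights (continuous fundamental domains) for proper cocompact actions
-/

namespace Pool.Agent.Lat

open Set Topology MeasureTheory Function

section Weights

variable {D Z : Type*} [Group D] [TopologicalSpace Z]

/-- A weight for the action `T`: a continuous compactly supported nonnegative function whose
translates add up to one. -/
structure IsWt (T : D → Z → Z) (b : Z → ℝ) : Prop where
  cont : Continuous b
  nonneg : ∀ z, 0 ≤ b z
  cpt : HasCompactSupport b
  sum : ∀ z, ∑ᶠ δ, b (T δ z) = 1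

variable {T : D → Z → Z}

omit [Group D] in
theorem finite_two (hproper : ∀ K : Set Z, IsCompact K → {δ : D | (T δ '' K ∩ K).Nonempty}.Finite)
    {K L : Set Z} (hK : IsCompact K) (hL : IsCompact L) :
    {δ : D | (T δ '' K ∩ L).Nonempty}.Finite :=
  (hproper (K ∪ L) (hK.union hL)).subset (by
    rintro δ ⟨z, ⟨x, hx, rfl⟩, hz⟩
    exact ⟨_, ⟨x, Or.inl hx, rfl⟩, Or.inr hz⟩)

omit [Group D] in
theorem locFin [LocallyCompactSpace Z]
    (hproper : ∀ K : Set Z, IsCompact K → {δ : D | (T δ '' K ∩ K).Nonempty}.Finite)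
    {b : Z → ℝ} (hb : HasCompactSupport b) (φ : D → ℝ) :
    LocallyFinite fun δ => support fun z => φ δ * b (T δ z) := by
  intro z
  obtain ⟨N, hN, hz⟩ := exists_compact_mem_nhds z
  refine ⟨N, hz, (finite_two hproper hN hb).subset ?_⟩
  rintro δ ⟨x, hx, hxN⟩
  have : b (T δ x) ≠ 0 := fun h => hx (by simp [h])
  exact ⟨T δ x, ⟨x, hxN, rfl⟩, subset_tsupport _ this⟩

theorem locFin' [LocallyCompactSpace Z]
    (hproper : ∀ K : Set Z, IsCompact K → {δ : D | (T δ '' K ∩ K).Nonempty}.Finite)
    {b : Z → ℝ} (hb : HasCompactSupport b) :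
    LocallyFinite fun δ => support fun z => b (T δ z) := by
  have := locFin hproper hb (fun _ => 1)
  simpa using this

theorem continuous_sum_wt [LocallyCompactSpace Z] (hc : ∀ δ, Continuous (T δ))
    (hproper : ∀ K : Set Z, IsCompact K → {δ : D | (T δ '' K ∩ K).Nonempty}.Finite)
    {b : Z → ℝ} (hbc : Continuous b) (hb : HasCompactSupport b) (φ : D → ℝ) :
    Continuous fun z => ∑ᶠ δ, φ δ * b (T δ z) :=
  continuous_finsum (fun δ => continuous_const.mul (hbc.comp (hc δ))) (locFin hproper hb φ)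

theorem finite_at [LocallyCompactSpace Z]
    (hproper : ∀ K : Set Z, IsCompact K → {δ : D | (T δ '' K ∩ K).Nonempty}.Finite)
    {b : Z → ℝ} (hb : HasCompactSupport b) (z : Z) :
    (support fun δ => b (T δ z)).Finite := by
  have := (locFin' hproper hb).point_finite z
  exact this.subset (fun δ hδ => hδ)

/-- existence of weights -/
theorem exists_wt [LocallyCompactSpace Z] [T2Space Z] (hc : ∀ δ, Continuous (T δ))
    (hmul : ∀ δ ε z, T (δ * ε) z = T δ (T ε z))
    (hproper : ∀ K : Set Z, IsCompact K → {δ : D | (T δ '' K ∩ K).Nonempty}.Finite)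
    (hcoc : ∃ Q : Set Z, IsCompact Q ∧ ∀ z, ∃ δ, T δ z ∈ Q) : ∃ b, IsWt T b := by
  obtain ⟨Q, hQ, hQz⟩ := hcoc
  obtain ⟨b0, h1, -, hcs, h01⟩ := exists_continuous_one_zero_of_isCompact (X := Z) hQ
    (isClosed_empty) (disjoint_empty Q)
  set B : Z → ℝ := fun z => ∑ᶠ δ, b0 (T δ z) with hB
  have hBc : Continuous B := by
    have := continuous_sum_wt hc hproper b0.continuous hcs (fun _ => 1)
    simpa [hB] using this
  have hBpos : ∀ z, 0 < B z := by
    intro z
    obtain ⟨δ, hδ⟩ := hQz z
    have h2 : (0 : ℝ) < b0 (T δ z) := by rw [h1 hδ]; simp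
    exact finsum_pos (fun δ => (h01 (T δ z)).1) ⟨δ, h2⟩ (finite_at hproper hcs z)
  have hBinv : ∀ γ z, B (T γ z) = B z := by
    intro γ z
    simp only [hB]
    have : ∀ δ, b0 (T δ (T γ z)) = b0 (T (δ * γ) z) := fun δ => by rw [hmul]
    simp_rw [this]
    exact finsum_comp_equiv (Equiv.mulRight γ) (f := fun δ => b0 (T δ z))
  refine ⟨fun z => b0 z / B z, b0.continuous.div hBc fun z => (hBpos z).ne',
    fun z => div_nonneg (h01 z).1 (hBpos z).le, ?_, ?_⟩
  · have : (fun z => b0 z / B z) = fun z => b0 z * (B z)⁻¹ := by ext z; rw [div_eq_mul_inv]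
    rw [this]
    exact hcs.mul_right
  · intro z
    simp_rw [hBinv, div_eq_mul_inv]
    rw [← finsum_mul' _ _ (finite_at hproper hcs z)]
    exact mul_inv_cancel₀ (hBpos z).ne'

omit [Group D] in
/-- For every point some translate has positive weight. -/
theorem IsWt.exists_pos {b : Z → ℝ} (hb : IsWt T b) (z : Z) : ∃ δ, b (T δ z) ≠ 0 := by
  by_contra h
  push Not at h
  have := hb.sum z
  simp_rw [h] at this
  simp at this

/-- The integral of an invariant function against a weight does not depend on the weight. -/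
theorem integral_weight_eq [LocallyCompactSpace Z] [T2Space Z] [MeasurableSpace Z] [BorelSpace Z]
    (m : Measure Z) [IsFiniteMeasureOnCompacts m]
    (hone : ∀ z, T 1 z = z)
    (hmul : ∀ δ ε z, T (δ * ε) z = T δ (T ε z))
    (hc : ∀ δ, Continuous (T δ))
    (hproper : ∀ K : Set Z, IsCompact K → {δ : D | (T δ '' K ∩ K).Nonempty}.Finite)
    (hmp : ∀ δ, MeasurePreserving (T δ) m m)
    {b b' : Z → ℝ} (hb : IsWt T b) (hb' : IsWt T b') {F : Z → ℝ} (hF : Continuous F)
    (hinv : ∀ δ z, F (T δ z) = F z) :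
    ∫ z, F z * b z ∂m = ∫ z, F z * b' z ∂m := by
  classical
  set K : Set Z := tsupport b ∪ tsupport b' with hK
  have hKc : IsCompact K := IsCompact.union hb.cpt hb'.cpt
  set A := (hproper K hKc).toFinset with hA
  have hmemA : ∀ δ, δ ∈ A ↔ (T δ '' K ∩ K).Nonempty := by
    intro δ; rw [hA, Set.Finite.mem_toFinset]; rfl
  have hAinv : ∀ δ, δ ∈ A → δ⁻¹ ∈ A := by
    intro δ hδ
    rw [hmemA] at hδ ⊢
    obtain ⟨_, ⟨x, hx, rfl⟩, hz⟩ := hδ
    refine ⟨x, ⟨T δ x, hz, ?_⟩, hx⟩
    rw [← hmul, inv_mul_cancel, hone]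
  have key : ∀ (c c' : Z → ℝ), IsWt T c → IsWt T c' → tsupport c ⊆ K → tsupport c' ⊆ K →
      ∀ z, c z = ∑ δ ∈ A, c z * c' (T δ z) := by
    intro c c' hc1 hc2 h1 h2 z
    by_cases hz : c z = 0
    · simp [hz]
    · have h3 : ∑ᶠ δ, c' (T δ z) = ∑ δ ∈ A, c' (T δ z) := by
        apply finsum_eq_sum_of_support_subset
        intro δ hδ
        rw [Finset.mem_coe, hmemA]
        exact ⟨T δ z, ⟨z, h1 (subset_tsupport _ hz), rfl⟩, h2 (subset_tsupport _ hδ)⟩
      rw [← Finset.mul_sum, ← h3, hc2.sum, mul_one]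
  have hint : ∀ (c c' : Z → ℝ), IsWt T c → IsWt T c' → ∀ δ,
      Integrable (fun z => F z * (c z * c' (T δ z))) m := by
    intro c c' hc1 hc2 δ
    apply Continuous.integrable_of_hasCompactSupport
    · exact hF.mul (hc1.cont.mul (hc2.cont.comp (hc δ)))
    · have : HasCompactSupport (fun z => c z * c' (T δ z)) := hc1.cpt.mul_right
      exact this.mul_left
  calc ∫ z, F z * b z ∂m = ∫ z, ∑ δ ∈ A, F z * (b z * b' (T δ z)) ∂m := by
        refine integral_congr_ae (Filter.Eventually.of_forall fun z => ?_)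
        simp only
        rw [← Finset.mul_sum, ← key b b' hb hb' subset_union_left subset_union_right z]
    _ = ∑ δ ∈ A, ∫ z, F z * (b z * b' (T δ z)) ∂m :=
        integral_finsetSum _ fun δ _ => hint b b' hb hb' δ
    _ = ∑ δ ∈ A, ∫ z, F z * (b' z * b (T δ⁻¹ z)) ∂m := by
        refine Finset.sum_congr rfl fun δ _ => ?_
        have hemb : MeasurableEmbedding (T δ) :=
          (show Homeomorph Z Z from
            { toFun := T δ
              invFun := T δ⁻¹
              left_inv := fun z => by rw [← hmul, inv_mul_cancel, hone]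
              right_inv := fun z => by rw [← hmul, mul_inv_cancel, hone]
              continuous_toFun := hc δ
              continuous_invFun := hc δ⁻¹ }).measurableEmbedding
        refine Eq.trans ?_ ((hmp δ).integral_comp hemb (fun z => F z * (b' z * b (T δ⁻¹ z))))
        refine integral_congr_ae (Filter.Eventually.of_forall fun z => ?_)
        simp only
        rw [hinv, ← hmul, inv_mul_cancel, hone, mul_comm (b z)]
    _ = ∑ δ ∈ A, ∫ z, F z * (b' z * b (T δ z)) ∂m := by
        refine Finset.sum_nbij' (fun δ => δ⁻¹) (fun δ => δ⁻¹) (fun δ hδ => hAinv δ hδ)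
          (fun δ hδ => hAinv δ hδ) (fun δ _ => inv_inv δ) (fun δ _ => inv_inv δ) (fun δ _ => rfl)
    _ = ∫ z, ∑ δ ∈ A, F z * (b' z * b (T δ z)) ∂m :=
        (integral_finsetSum _ fun δ _ => hint b' b hb' hb δ).symm
    _ = ∫ z, F z * b' z ∂m := by
        refine integral_congr_ae (Filter.Eventually.of_forall fun z => ?_)
        simp only
        rw [← Finset.mul_sum, ← key b' b hb' hb subset_union_right subset_union_left z]

end Weights

end Pool.Agent.Lat
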