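import Pool.Agent.Lib_helper41.Lat.Iface
import Pool.Agent.Lib_helper95.Lat.Weights

/-!
# Unimodularity and recurrence
-/

namespace Pool.Agent.Lat

open Set Topology MeasureTheory Function Measure

section Unimod

variable {G : Type*} [Group G] [TopologicalSpace G] [IsTopologicalGroup G]
  [LocallyCompactSpace G] [T2Space G] [SecondCountableTopology G]

theorem continuous_modChar : Continuous fun x : G => (modularCharacterFun x : ℝ) := by
  borelize G
  set μ : Measure G := haar with hμ
  obtain ⟨g, gcs, g0, g1⟩ : ∃ g : C(G, ℝ), HasCompactSupport g ∧ 0 ≤ g ∧ g 1 ≠ 0 :=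
    exists_continuous_nonneg_pos (1 : G)
  have hpos : 0 < ∫ y, g y ∂μ := by
    apply (integral_pos_iff_support_of_nonneg _ _).2
    · exact g.continuous.isOpen_support.measure_pos μ ⟨1, g1⟩
    · exact fun y => g0 y
    · exact g.continuous.integrable_of_hasCompactSupport gcs
  have h1 : ∀ x : G, ∫ y, g (y * x) ∂μ = (modularCharacterFun x : ℝ) * ∫ y, g y ∂μ := by
    intro x
    have h2 : ∫ y, g y ∂(map (· * x) μ) = ∫ y, g (y * x) ∂μ :=
      integral_map (measurable_mul_const x).aemeasurable g.continuous.aestronglyMeasurable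
    rw [← h2, map_right_mul_eq_modularCharacterFun_smul μ x, integral_smul_nnreal_measure]
    rfl
  have h3 : Continuous fun x : G => ∫ y, g (y * x) ∂μ := by
    have h4 := continuous_integral_apply_inv_mul (μ := μ.inv) g.continuous gcs
    have h5 : ∀ x : G, ∫ y, g (y⁻¹ * x) ∂(μ.inv) = ∫ y, g (y * x) ∂μ := by
      intro x
      rw [Measure.inv, integral_map measurable_inv.aemeasurable]
      · simp
      · exact (by fun_prop : Continuous fun y : G => g (y⁻¹ * x)).aestronglyMeasurable
    simpa only [h5] using h4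
  have h6 : (fun x : G => (modularCharacterFun x : ℝ)) =
      fun x : G => (∫ y, g (y * x) ∂μ) * (∫ y, g y ∂μ)⁻¹ := by
    ext x
    rw [h1, mul_assoc, mul_inv_cancel₀ hpos.ne', mul_one]
  rw [h6]
  exact h3.mul continuous_const

theorem unimodular (hnc : NoChar G) [MeasurableSpace G] [BorelSpace G] (μ : Measure G)
    [IsHaarMeasure μ] (x : G) : MeasurePreserving (fun y => y * x) μ μ := by
  have h1 : ∀ x : G, modularCharacterFun x = 1 := by
    intro x
    have h2 := hnc (fun x : G => Real.log (modularCharacterFun x : ℝ)) ?_ ?_ x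
    · have h3 : (0 : ℝ) < modularCharacterFun x := modularCharacterFun_pos x
      have h4 := Real.exp_log h3
      rw [h2, Real.exp_zero] at h4
      exact_mod_cast h4.symm
    · exact continuous_modChar.log fun y =>
        (show (0 : ℝ) < modularCharacterFun y from modularCharacterFun_pos y).ne'
    · intro g h
      rw [modularCharacterFun_map_mul, NNReal.coe_mul, Real.log_mul]
      · exact (show (0 : ℝ) < modularCharacterFun g from modularCharacterFun_pos g).ne'
      · exact (show (0 : ℝ) < modularCharacterFun h from modularCharacterFun_pos h).ne'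
  refine ⟨measurable_mul_const x, ?_⟩
  rw [map_right_mul_eq_modularCharacterFun_smul μ x, h1, one_smul]

end Unimod

section Act

variable {G : Type*} [Group G] [TopologicalSpace G] {n : ℕ} {Γ : Type*} [Group Γ]

omit [TopologicalSpace G] in
theorem act_one (a : Γ →* G) (b : Γ →* (EE n ≃ᵢ EE n)) (z : G × EE n) : act a b 1 z = z := by
  simp [act]

omit [TopologicalSpace G] in
theorem act_mul (a : Γ →* G) (b : Γ →* (EE n ≃ᵢ EE n)) (γ δ : Γ) (z : G × EE n) :
    act a b (γ * δ) z = act a b γ (act a b δ z) := by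
  simp [act, mul_assoc]

theorem continuous_act [IsTopologicalGroup G] (a : Γ →* G) (b : Γ →* (EE n ≃ᵢ EE n)) (γ : Γ) :
    Continuous (act a b γ) :=
  (continuous_const.mul continuous_fst).prodMk ((b γ).continuous.comp continuous_snd)

theorem isom_measurePreserving (β : EE n ≃ᵢ EE n) :
    MeasurePreserving β (volume : Measure (EE n)) volume := by
  have h : (β : EE n → EE n) = (fun w => β 0 + w) ∘ lin β := by
    ext1 w
    have := apply_add β 0 w
    rw [zero_add] at this
    exact this
  rw [h]
  exact (measurePreserving_add_left volume (β 0)).comp (lin β).measurePreserving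

theorem act_measurePreserving [IsTopologicalGroup G] [SecondCountableTopology G]
    [MeasurableSpace G] [BorelSpace G] (μ : Measure G) [SFinite μ] [μ.IsMulLeftInvariant]
    (a : Γ →* G) (b : Γ →* (EE n ≃ᵢ EE n)) (γ : Γ) :
    MeasurePreserving (act a b γ) (μ.prod volume) (μ.prod volume) :=
  (measurePreserving_mul_left μ (a γ)).prod (isom_measurePreserving (b γ))

end Act

section RecProof

variable {G : Type*} [Group G] [TopologicalSpace G] [IsTopologicalGroup G]
  [LocallyCompactSpace G] [T2Space G] [SecondCountableTopology G] {n : ℕ} {Γ : Type*} [Group Γ]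

omit [IsTopologicalGroup G] [LocallyCompactSpace G] [T2Space G] [SecondCountableTopology G] in
theorem proper_sub {a : Γ →* G} {b : Γ →* (EE n ≃ᵢ EE n)} {Δ : Subgroup Γ}
    (hproper : ∀ K : Set (G × EE n), IsCompact K →
      {δ : Γ | δ ∈ Δ ∧ (act a b δ '' K ∩ K).Nonempty}.Finite) :
    ∀ K : Set (G × EE n), IsCompact K →
      {δ : Δ | ((fun δ : Δ => act a b (δ : Γ)) δ '' K ∩ K).Nonempty}.Finite := by
  intro K hK
  have h := hproper K hK
  refine Set.Finite.subset (h.preimage (f := fun δ : Δ => (δ : Γ))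
    Subtype.coe_injective.injOn) ?_
  intro δ hδ
  exact ⟨δ.2, hδ⟩

theorem rec_of_action (hnc : NoChar G) (a : Γ →* G) (b : Γ →* (EE n ≃ᵢ EE n)) (Δ : Subgroup Γ)
    (hproper : ∀ K : Set (G × EE n), IsCompact K →
      {δ : Γ | δ ∈ Δ ∧ (act a b δ '' K ∩ K).Nonempty}.Finite)
    (hcoc : ∃ Q : Set (G × EE n), IsCompact Q ∧ ∀ z, ∃ δ ∈ Δ, act a b δ z ∈ Q) :
    Rec (a '' (Δ : Set Γ)) := by
  intro θ hθ hθinv x hle
  borelize G
  set μ : Measure G := haar with hμ
  set m : Measure (G × EE n) := μ.prod volume with hm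
  set T : Δ → (G × EE n) → (G × EE n) := fun δ => act a b (δ : Γ) with hT
  have hone : ∀ z, T 1 z = z := fun z => act_one a b z
  have hmul : ∀ δ ε z, T (δ * ε) z = T δ (T ε z) := fun δ ε z => act_mul a b δ ε z
  have hc : ∀ δ, Continuous (T δ) := fun δ => continuous_act a b δ
  have hpr := proper_sub hproper
  have hmp : ∀ δ, MeasurePreserving (T δ) m m := fun δ => act_measurePreserving μ a b δ
  obtain ⟨w, hw⟩ := exists_wt (T := T) hc hmul hpr (by
    obtain ⟨Q, hQ, h⟩ := hcoc
    refine ⟨Q, hQ, fun z => ?_⟩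
    obtain ⟨δ, hδ, h2⟩ := h z
    exact ⟨⟨δ, hδ⟩, h2⟩)
  -- right translation
  let R : (G × EE n) ≃ₜ (G × EE n) := (Homeomorph.mulRight x).prodCongr (Homeomorph.refl _)
  have hR : ∀ z, R z = (z.1 * x, z.2) := fun z => rfl
  have hRs : ∀ z, R.symm z = (z.1 * x⁻¹, z.2) := fun z => rfl
  have hRmp : MeasurePreserving R m m :=
    (unimodular hnc μ x).prod (MeasurePreserving.id volume)
  have hRT : ∀ δ z, R.symm (T δ z) = T δ (R.symm z) := by
    intro δ z
    simp [hRs, hT, act, mul_assoc]
  have hw' : IsWt T (fun z => w (R.symm z)) := by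
    refine ⟨hw.cont.comp R.symm.continuous, fun z => hw.nonneg _,
      hw.cpt.comp_homeomorph R.symm, fun z => ?_⟩
    simp_rw [hRT]
    exact hw.sum _
  set F : G × EE n → ℝ := fun z => θ z.1 with hF
  have hFc : Continuous F := hθ.comp continuous_fst
  have hFinv : ∀ δ z, F (T δ z) = F z := fun δ z =>
    hθinv (a δ) ⟨δ, δ.2, rfl⟩ z.1
  have hFRinv : ∀ δ z, F (R (T δ z)) = F (R z) := fun δ z => by
    have : R (T δ z) = T δ (R z) := by simp [hR, hT, act, mul_assoc]
    rw [this, hFinv]
  have h1 : ∫ z, F z * w z ∂m = ∫ z, F z * w (R.symm z) ∂m :=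
    integral_weight_eq m hone hmul hc hpr hmp hw hw' hFc hFinv
  have h2 : ∫ z, F z * w (R.symm z) ∂m = ∫ z, F (R z) * w z ∂m := by
    have := hRmp.integral_comp R.measurableEmbedding (fun z => F z * w (R.symm z))
    rw [← this]
    simp
  have hi1 : Integrable (fun z => F z * w z) m :=
    (hFc.mul hw.cont).integrable_of_hasCompactSupport hw.cpt.mul_left
  have hi2 : Integrable (fun z => F (R z) * w z) m :=
    ((hFc.comp R.continuous).mul hw.cont).integrable_of_hasCompactSupport hw.cpt.mul_left
  have h3 : ∫ z, (F z - F (R z)) * w z ∂m = 0 := by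
    have : ∀ z, (F z - F (R z)) * w z = F z * w z - F (R z) * w z := fun z => by ring
    simp_rw [this]
    rw [integral_sub hi1 hi2, h1, h2, sub_self]
  have hcont : Continuous fun z => (F z - F (R z)) * w z :=
    (hFc.sub (hFc.comp R.continuous)).mul hw.cont
  have hnn : 0 ≤ fun z => (F z - F (R z)) * w z := fun z =>
    mul_nonneg (sub_nonneg.2 (hle z.1)) (hw.nonneg z)
  have h4 : (fun z => (F z - F (R z)) * w z) = 0 := by
    have h5 : (fun z => (F z - F (R z)) * w z) =ᵐ[m] 0 :=
      (integral_eq_zero_iff_of_nonneg hnn (hcont.integrable_of_hasCompactSupport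
        hw.cpt.mul_left)).1 h3
    exact Continuous.ae_eq_iff_eq m hcont continuous_const |>.1 h5
  intro g
  obtain ⟨δ, hδ⟩ := hw.exists_pos (g, (0 : EE n))
  have h6 := congrFun h4 (T δ (g, 0))
  simp only [Pi.zero_apply, mul_eq_zero, hδ, or_false] at h6
  rw [hFinv, hFRinv] at h6
  exact (sub_eq_zero.1 h6).symm

end RecProof

end Pool.Agent.Lat
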